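import Pool.Agent.H30.FA.TA

/-!
# Row SEC of fas_modules: the sections
-/

set_option autoImplicit false

open Pool.Agent.H30.FA

namespace Pool.Agent.H46.FA

noncomputable section

theorem sc_trc (A : ℕ) {d : ℕ} (z : V d) : ∑ a, ‖trc A z a‖ ^ 2 ≤ ‖z‖ ^ 2 := by
  rw [EuclideanSpace.norm_sq_eq]
  have h1 : ∑ a, ‖trc A z a‖ ^ 2 = ∑ a ∈ Finset.range A,
      (if h : a < d then ‖z ⟨a, h⟩‖ ^ 2 else 0) := by
    rw [← Fin.sum_univ_eq_sum_range (fun a => if h : a < d then ‖z ⟨a, h⟩‖ ^ 2 else 0)]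
    refine Finset.sum_congr rfl fun a _ => ?_
    unfold trc
    by_cases h : (a : ℕ) < d
    · rw [dif_pos h, dif_pos h]
    · rw [dif_neg h, dif_neg h]; simp
  have h2 : ∑ b, ‖z b‖ ^ 2 = ∑ a ∈ Finset.range d,
      (if h : a < d then ‖z ⟨a, h⟩‖ ^ 2 else 0) := by
    rw [← Fin.sum_univ_eq_sum_range (fun a => if h : a < d then ‖z ⟨a, h⟩‖ ^ 2 else 0)]
    refine Finset.sum_congr rfl fun a _ => ?_
    rw [dif_pos a.2]
  rw [h1, h2]
  have h3 : ∑ a ∈ Finset.range (max A d), (if h : a < d then ‖z ⟨a, h⟩‖ ^ 2 else 0) =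
      ∑ a ∈ Finset.range d, (if h : a < d then ‖z ⟨a, h⟩‖ ^ 2 else 0) := by
    symm
    refine Finset.sum_subset (Finset.range_subset_range.2 (le_max_right _ _)) ?_
    intro a _ ha
    rw [Finset.mem_range, not_lt] at ha
    rw [dif_neg (by omega)]
  rw [← h3]
  refine Finset.sum_le_sum_of_subset_of_nonneg (Finset.range_subset_range.2 (le_max_left _ _)) ?_
  intro a _ _
  split_ifs
  · positivity
  · exact le_rfl

theorem sc_mom (hFTR : T_FTR) (A D : ℕ) {J : Type} [Fintype J] {d : ℕ} (t : J → ℝ)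
    (x : J → V d) (G : V d ≃ₗᵢ[ℂ] V d) (ht : Wt t) (hx : ∀ j, ‖x j‖ = 1) :
    ‖mom A D t x G‖ ≤ Real.sqrt (D + 1) := by
  have h1 : ∀ j, ‖ft D (trc A (G.symm (x j)))‖ ≤ Real.sqrt (D + 1) := by
    intro j
    refine Real.le_sqrt_of_sq_le ?_
    refine (hFTR A D _ (trc A (G.symm (x j)))).2.1 ?_
    refine (sc_trc A _).trans ?_
    rw [LinearIsometryEquiv.norm_map, hx j]
    norm_num
  unfold mom
  calc ‖∑ j, (t j : ℂ) • ft D (trc A (G.symm (x j)))‖
      ≤ ∑ j, ‖(t j : ℂ) • ft D (trc A (G.symm (x j)))‖ := norm_sum_le _ _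
    _ ≤ ∑ j, t j * Real.sqrt (D + 1) := by
      refine Finset.sum_le_sum fun j _ => ?_
      rw [norm_smul, Complex.norm_real, Real.norm_eq_abs, abs_of_nonneg (ht.1 j)]
      exact mul_le_mul_of_nonneg_left (h1 j) (ht.1 j)
    _ = Real.sqrt (D + 1) := by rw [← Finset.sum_mul, ht.2, one_mul]

theorem sc_exp (a b : ℝ) :
    ‖Complex.exp (a * Complex.I) - Complex.exp (b * Complex.I)‖ ≤ |a - b| := by
  have h1 : Complex.exp (a * Complex.I) - Complex.exp (b * Complex.I) =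
      Complex.exp (b * Complex.I) * (Complex.exp (Complex.I * ((a - b : ℝ) : ℂ)) - 1) := by
    rw [mul_sub, ← Complex.exp_add, mul_one]
    congr 2
    push_cast
    ring
  rw [h1, norm_mul, Complex.norm_exp_ofReal_mul_I, one_mul]
  exact Real.norm_exp_I_mul_ofReal_sub_one_le

theorem pf_SEC (hDET : T_DET) (hFOU : T_FOU) (hFLP : T_FLP) (hSMO : T_SMO) (hNET : T_NET)
    (hFTR : T_FTR) (hBAS : T_BAS) : T_SEC := by
  intro κ κ₂ h4 hk
  obtain ⟨A, D, ε, hε, hdet⟩ := hDET κ κ₂ h4 hk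
  obtain ⟨W, c, hc, hfou⟩ := hFOU ε hε
  obtain ⟨N, v, hv⟩ := hNET A D (Real.sqrt (D + 1)) ε hε
  have hfin : Finite {w : ℤ // w ≠ 0 ∧ |w| ≤ (W : ℤ)} := by
    refine Set.Finite.subset (Set.finite_Icc (-(W : ℤ)) W) ?_
    intro w hw
    exact abs_le.1 hw.2
  letI : Fintype {w : ℤ // w ≠ 0 ∧ |w| ≤ (W : ℤ)} := Fintype.ofFinite _
  let e := Fintype.equivFin (Fin N × {w : ℤ // w ≠ 0 ∧ |w| ≤ (W : ℤ)})
  refine ⟨Fintype.card (Fin N × {w : ℤ // w ≠ 0 ∧ |w| ≤ (W : ℤ)}), ?_⟩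
  intro k J _ x hx
  refine ⟨{
    S := fun i t h h' => SV (v (e.symm i).1) (e.symm i).2.1 t x h h'
    w := fun i => (e.symm i).2.1
    L := 2 * Real.pi * (Real.sqrt (D + 1) + 1)
    c := c
    L_nonneg := by positivity
    c_pos := hc
    w_ne := fun i => (e.symm i).2.2.1
    lip := ?_
    eqv := ?_
    nv := ?_ }⟩
  · intro i t t' h h' l l' ht ht'
    refine ((hSMO A D J k _ _ t t' x h h' l l' ht ht' hx).1).trans ?_
    have e1 : 0 ≤ ∑ j, |t j - t' j| := Finset.sum_nonneg fun j _ => abs_nonneg _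
    have e2 : 0 ≤ ‖h - l‖ := norm_nonneg _
    have e3 : 0 ≤ ‖h' - l'‖ := norm_nonneg _
    have e4 : 0 ≤ Real.sqrt ((D : ℝ) + 1) := Real.sqrt_nonneg _
    have e5 := Real.pi_pos
    rw [mul_assoc (2 * Real.pi) (Real.sqrt ((D : ℝ) + 1) + 1)]
    have e6 := mul_nonneg e4 e2
    have e7 := mul_nonneg e4 e3
    refine mul_le_mul_of_nonneg_left ?_ (by positivity)
    linarith only [e1, e2, e3, e6, e7]
  · intro i t h h' α β ht hα hβ
    exact (hSMO A D J k _ _ t t x h h' h h' ht ht hx).2 α β hα hβ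
  · intro C hC hA hr
    have ht : Wt C.t := ⟨C.t_nonneg, C.t_sum⟩
    have hm := sc_mom hFTR A D C.t C.x C.e.repr.symm ht C.norm_x
    obtain ⟨n, hn⟩ := hv _ hm
    obtain ⟨hd1, hd2⟩ := hdet J k C hA hr (v n) hn
    by_contra hcon
    push Not at hcon
    have hφ := hfou (fun θ => FV (v n) C.t C.x (C.e 0) (Complex.exp (θ * Complex.I) • C.e 1))
      (by
        intro a b
        have e1 := (hFLP A D J k (v n) C.t C.t C.x (C.e 0)
          (Complex.exp (a * Complex.I) • C.e 1) (C.e 0)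
          (Complex.exp (b * Complex.I) • C.e 1) ht ht C.norm_x).2.2.2.1
        refine e1.trans ?_
        rw [← sub_smul, norm_smul, C.e.norm_eq_one, mul_one]
        simp only [sub_self, abs_zero, Finset.sum_const_zero, mul_zero, norm_zero, zero_add]
        exact sc_exp a b)
      (by
        intro a
        congr 2
        have := Complex.exp_mul_I_periodic (a : ℂ)
        push_cast
        exact this)
      (by
        intro w hw0 hwW
        have e1 := hcon (e (n, ⟨w, hw0, hwW⟩))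
        simp only [Equiv.symm_apply_apply] at e1
        rw [← hC] at e1
        exact e1.le)
      0 (-1)
    have e1 : Complex.exp (((0 : ℝ) : ℂ) * Complex.I) = 1 := by simp
    have e2 : Complex.exp (((-1 : ℝ) : ℂ) * Complex.I) = Complex.exp (-Complex.I) := by
      congr 1
      push_cast
      ring
    simp only [e1, e2, one_smul] at hφ
    have := (abs_le.1 hφ).1
    linarith

end

end Pool.Agent.H46.FA
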